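import Pool.Agent.Y113.MT.HStm

set_option autoImplicit false

open Matrix Pool.Agent.Y113.MT

namespace Pool.Agent.Y658.MT

/-- **OP** -/
theorem op : S_OP := by
  classical
  intro N U hU
  let cc : (DirectSum ℤ fun p => U p) ≃ₗ[ℂ] (Fin N → ℂ) :=
    LinearEquiv.ofBijective (DirectSum.coeLinearMap U) hU
  let g : (DirectSum ℤ fun p => U p) →ₗ[ℂ] (Fin N → ℂ) :=
    DirectSum.toModule ℂ ℤ (Fin N → ℂ) (fun p => (p : ℂ) • (U p).subtype)
  let f : (Fin N → ℂ) →ₗ[ℂ] (Fin N → ℂ) := g ∘ₗ (cc.symm : (Fin N → ℂ) →ₗ[ℂ] _)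
  have hf : ∀ p, ∀ z ∈ U p, f z = (p : ℂ) • z := by
    intro p z hz
    have hc : cc.symm z = DirectSum.lof ℂ ℤ (fun p => U p) p ⟨z, hz⟩ := by
      rw [LinearEquiv.symm_apply_eq]
      show z = DirectSum.coeLinearMap U (DirectSum.lof ℂ ℤ (fun p => U p) p ⟨z, hz⟩)
      rw [DirectSum.coeLinearMap_lof]
    show g (cc.symm z) = _
    rw [hc]
    show DirectSum.toModule ℂ ℤ (Fin N → ℂ) (fun p => (p : ℂ) • (U p).subtype) _ = _
    rw [DirectSum.toModule_lof]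
    rfl
  refine ⟨(LinearMap.toMatrix' f)ᵀ, fun p z hz => ?_⟩
  rw [Matrix.vecMul_transpose, LinearMap.toMatrix'_mulVec]
  exact hf p z hz

end Pool.Agent.Y658.MT
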